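import Mathlib
import Pool.Agent.MP_a83649_an.Example

/-!
Negative answer to all three parts of the question. On complex `L_p` of a counting measure there
is an invertible sectorial operator of angle `0` whose negative generates a bounded positive
`C_0`-semigroup and which has no bounded `H^∞`-calculus, no bounded imaginary powers
(`1 < p < ∞`) and is not R-sectorial (`2 < p < ∞`).
-/

open MeasureTheory
open scoped ENNReal
open Pool.Agent.MP_a83649_an

namespace Pool.Agent.Results.MP_a83649_an.Counterexample

theorem result (p : ℝ≥0∞) [Fact (1 ≤ p)] (hp1 : 1 < p) (hp : p ≠ ∞) :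
    ∃ (Ω : Type) (_ : MeasurableSpace Ω) (μ : Measure Ω) (A : Op (LpC p μ)),
      Sectorial A ∧ angle A = 0 ∧ 0 ∉ spec A ∧ NegGenerates (posCone p μ) A ∧
      ¬ BoundedHinfty A ∧ ¬ BIP A ∧ (2 < p → ¬ RSectorial A) := by
  let _ : MeasurableSpace Idx := ⊤
  have : DiscreteMeasurableSpace Idx := ⟨fun _ => trivial⟩
  let m : Model (Lp ℂ p (Measure.count : Measure Idx)) Idx p.toReal := countModel hp1 hp
  let s := exSys m.one_lt
  refine ⟨Idx, ⊤, Measure.count, s.op m, s.sectorial m, s.angle_eq m, s.zero_notMem_spec m,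
    ⟨s.T m, s.isC0Generator m, fun t ht f hf => ?_, _, fun t ht => s.norm_T m ht⟩,
    s.not_boundedHinfty m (ex_unb m), s.not_BIP m (ex_unb m),
    fun h2 => s.not_RSectorial m (ex_unR m ?_)⟩
  · exact Measure.ae_count_iff.2 (s.T_pos m ht f (Measure.ae_count_iff.1 hf))
  · have : (2 : ℝ≥0∞).toReal < p.toReal := (ENNReal.toReal_lt_toReal (by simp) hp).2 h2
    simpa using this

end Pool.Agent.Results.MP_a83649_an.Counterexample
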