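import Mathlib
import Pool.Agent.MP_a83649_an.WS.Main

/-!
One positive semigroup on the whole scale `ℓ_1, …, ℓ_∞`. For `1 ≤ a < 2 < b ≤ ∞` there are
nonnegative matrices `k t` with uniformly bounded row and column sums that act on every `ℓ_p`,
`1 < p < ∞`, as a bounded `C_0`-semigroup whose negative generator is invertible and sectorial of
angle `0`, and is R-analytic (and R-sectorial) exactly for `a < p < b`.
-/

open MeasureTheory
open scoped ENNReal
open Pool.Agent.MP_a83649_an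

namespace Pool.Agent.Results.MP_a83649_an.ExactRange

theorem result (a b : ℝ≥0∞) (ha : 1 ≤ a) (ha2 : a < 2) (hb : 2 < b) :
    ∃ (k : ℝ → ℕ → ℕ → ℝ) (M : ℝ),
      (∀ t : ℝ, 0 ≤ t → ∀ x : ℕ, (∀ y : ℕ, 0 ≤ k t x y) ∧
        ∀ F : Finset ℕ, ∑ y ∈ F, k t x y ≤ M ∧ ∑ y ∈ F, k t y x ≤ M) ∧
      ∀ (p : ℝ≥0∞) [Fact (1 ≤ p)], 1 < p → p ≠ ∞ →
        ∃ (A : Op (LpC p (Measure.count : Measure ℕ)))
          (T : ℝ → LpC p (Measure.count : Measure ℕ) →L[ℂ] LpC p (Measure.count : Measure ℕ)),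
          IsC0Generator T (-A) ∧
          (∀ t : ℝ, 0 ≤ t → ‖T t‖ ≤ M ∧ ∀ (f : LpC p (Measure.count : Measure ℕ)) (x : ℕ),
            HasSum (fun y => (k t x y : ℂ) * f y) (T t f x)) ∧
          Sectorial A ∧ angle A = 0 ∧ 0 ∉ spec A ∧
          (RAnalytic A ↔ a < p ∧ p < b) ∧ (RSectorial A ↔ a < p ∧ p < b) := by
  obtain ⟨e⟩ : Nonempty (WS.Nd ≃ ℕ) := nonempty_equiv_of_countable
  have lt : ∀ u v : ℝ≥0∞, 1 ≤ u → 1 ≤ v → (u⁻¹.toReal < v⁻¹.toReal ↔ v < u) := fun u v hu hv => by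
    rw [ENNReal.toReal_lt_toReal (ENNReal.inv_ne_top.2 (zero_lt_one.trans_le hu).ne')
      (ENNReal.inv_ne_top.2 (zero_lt_one.trans_le hv).ne'), ENNReal.inv_lt_inv]
  have hb1 : 1 ≤ b := one_le_two.trans hb.le
  have a1 := (lt 2 a one_le_two ha).2 ha2
  have a2 := (lt 1 a le_rfl ha).not.2 (not_lt.2 ha)
  have b1 := (lt b 2 hb1 one_le_two).2 hb
  have b2 : 0 ≤ b⁻¹.toReal := ENNReal.toReal_nonneg
  simp only [ENNReal.toReal_inv 2, ENNReal.toReal_ofNat, inv_one, ENNReal.toReal_one, not_lt]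
    at a1 a2 b1
  set α := a⁻¹.toReal - 1 / 2 with hα
  set β := 1 / 2 - b⁻¹.toReal with hβ
  have α0 : 0 < α := by linarith
  have β0 : 0 < β := by linarith
  have h0 := WS.th_nonneg α β
  have h1 := WS.th_le α β
  have hτ := WS.tau_lt α0 β0
  refine ⟨fun t x y => (WS.tree (WS.th α β)).ker (fun n => Real.exp (-(t * dd n))) (e.symm x)
    (e.symm y), 1 + 2 * (1 - 2 ^ (-min α β))⁻¹, fun t ht x => ⟨fun y =>
      WS.ker_nonneg h0 (WS.mon_exp ht) _ _, fun F => ⟨?_, ?_⟩⟩, fun p _ hp1 hp => ?_⟩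
  · simpa using (WS.tree _).ker_row (WS.mon_exp ht)
      (fun a k _ => WS.tree_w_nonneg h0 (WS.mon_exp ht) a k)
      (WS.tree_row h0 h1 hτ (WS.mon_exp ht)) (e.symm x) (F.map e.symm.toEmbedding)
  · simpa using (WS.tree _).ker_col (WS.mon_exp ht)
      (WS.tree_col h0 h1 hτ (WS.mon_exp ht)) (e.symm x) (F.map e.symm.toEmbedding)
  let m := WS.reindex (countModel (ι := ℕ) hp1 hp) e
  let s := WS.treeSys h0 h1 hτ m.one_lt.le
  have p1 := lt p a hp1.le ha
  have p2 := lt b p hb1 hp1.le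
  rw [ENNReal.toReal_inv p] at p1 p2
  have yes : a < p ∧ p < b → RAnalytic (s.op m) := fun h => s.rAnalytic m
    (WS.th_sqB α0 β0 m.pos (by linarith [p1.2 h.1]) (by linarith [p2.2 h.2]))
  have no : RSectorial (s.op m) → a < p ∧ p < b := fun h => by
    by_contra h2
    refine s.not_RSectorial m (s.unR m ?_) h
    rcases not_and_or.1 h2 with h2 | h2
    · exact WS.th_unSq_low α0 m.pos (by linarith [not_lt.1 (p1.not.2 h2)])
    · exact WS.th_unSq_high β0 m.pos (by linarith [not_lt.1 (p2.not.2 h2)])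
  refine ⟨s.op m, s.T m, s.isC0Generator m, fun t ht => ⟨s.norm_T m ht, fun f x => ?_⟩,
    s.sectorial m, s.angle_eq m, s.zero_notMem_spec m,
    ⟨fun h => no h.1, yes⟩, no, fun h => (yes h).1⟩
  have h2 := (WS.tree (WS.th α β)).hasSum_ker (fun n => Real.exp (-(t * dd n))) (m.ev f) (e.symm x)
  have h3 : m.ev (s.T m t f) (e.symm x) = s.T m t f (e (e.symm x)) := rfl
  rw [s.ev_T m ht, e.apply_symm_apply] at h3
  rw [← h3]
  refine (e.hasSum_iff.1 ?_)
  simp only [Function.comp_def, e.symm_apply_apply]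
  exact h2

end Pool.Agent.Results.MP_a83649_an.ExactRange
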